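import Pool.Agent.Q152.QT.StmU

/-!
# Project QT of helper152: lemma job QU1 (chaining)
-/

set_option autoImplicit false

namespace Pool.Agent.Q285.QT

open Finset Pool.Agent.Q152.QT
open Pool.Agent.Q163.GC (W)

theorem W_add' (f : ℕ → ℝ) (x h k : ℕ) : W f x (h + k) = W f x h + W f (x + h) k := by
  unfold W
  rw [sum_range_add]
  congr 1
  refine sum_congr rfl fun j _ => ?_
  congr 1
  ring

theorem W_abs {f : ℕ → ℝ} (hf : ∀ n, |f n| ≤ 1) (x h : ℕ) : |W f x h| ≤ h := by
  unfold W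
  calc |∑ j ∈ range h, f (x + j + 1)| ≤ ∑ j ∈ range h, |f (x + j + 1)| := abs_sum_le_sum_abs _ _
    _ ≤ ∑ _j ∈ range h, (1 : ℝ) := sum_le_sum fun j _ => hf _
    _ = h := by simp

/-- JOB QU1 -/
theorem t_Chain : S_Chain := by
  intro f N j0 K hf hK J hJ
  induction J, hJ using Nat.le_induction with
  | base =>
    intro _ L hL s _
    have h1 : ∀ x ∈ Ico N (2 * N), W f (x + s) L ^ 2 ≤ 4 ^ j0 := by
      intro x _
      have h2 := W_abs hf (x + s) L
      have h3 : (L : ℝ) ≤ 2 ^ j0 := by exact_mod_cast hL.le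
      have h4 : W f (x + s) L ^ 2 ≤ (2 ^ j0) ^ 2 := sq_le_sq' (by linarith [(abs_le.1 h2).1])
        ((abs_le.1 h2).2.trans h3)
      refine h4.trans (le_of_eq ?_)
      rw [← pow_mul, mul_comm, pow_mul]
      norm_num
    calc ∑ x ∈ Ico N (2 * N), W f (x + s) L ^ 2 ≤ ∑ _x ∈ Ico N (2 * N), (4 : ℝ) ^ j0 := sum_le_sum h1
      _ = 4 ^ j0 * N := by
          rw [sum_const, Nat.card_Ico, nsmul_eq_mul, show 2 * N - N = N by omega]
          ring
      _ ≤ _ := by
          rw [Nat.sub_self, pow_zero, mul_one]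
          refine mul_le_mul_of_nonneg_right ?_ (Nat.cast_nonneg N)
          have : 0 ≤ 6 * K * 2 ^ j0 := by positivity
          linarith
  | succ J hJ ih =>
    intro hs L hL s hsL
    have ih' := ih (fun j h1 h2 => hs j h1 (by omega))
    have e1 : J + 1 - j0 = (J - j0) + 1 := by omega
    rcases Nat.lt_or_ge L (2 ^ J) with h | h
    · refine (ih' L h s hsL).trans ?_
      refine mul_le_mul_of_nonneg_right ?_ (Nat.cast_nonneg N)
      rw [e1, pow_succ, pow_succ]
      have h1 : 0 ≤ K * 2 ^ J := by positivity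
      have h2 : (0 : ℝ) ≤ 4 ^ j0 * (3 / 2 : ℝ) ^ (J - j0) := by positivity
      nlinarith
    · obtain ⟨L', rfl⟩ := Nat.exists_eq_add_of_le h
      have hL' : L' < 2 ^ J := by
        rw [pow_succ] at hL
        omega
      have h1 := ih' L' hL' (s + 2 ^ J) (by omega)
      have h2 : ∑ x ∈ Ico N (2 * N), W f (x + s) (2 ^ J) ^ 2 ≤ K * 2 ^ J * N := by
        refine le_trans ?_ (hs J hJ (Nat.lt_succ_self J))
        have h3 : ∑ x ∈ Ico N (2 * N), W f (x + s) (2 ^ J) ^ 2 =
            ∑ y ∈ (Ico N (2 * N)).image (fun x => x + s), W f y (2 ^ J) ^ 2 := by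
          rw [sum_image]
          intro a _ b _ hab
          exact Nat.add_right_cancel hab
        rw [h3]
        refine sum_le_sum_of_subset_of_nonneg ?_ (fun _ _ _ => sq_nonneg _)
        intro y hy
        rw [mem_image] at hy
        obtain ⟨x, hx, rfl⟩ := hy
        rw [mem_Ico] at hx ⊢
        constructor <;> omega
      have h4 : ∀ x ∈ Ico N (2 * N), W f (x + s) (2 ^ J + L') ^ 2 ≤
          3 * W f (x + s) (2 ^ J) ^ 2 + 3 / 2 * W f (x + (s + 2 ^ J)) L' ^ 2 := by
        intro x _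
        rw [W_add', ← add_assoc]
        nlinarith [sq_nonneg (2 * W f (x + s) (2 ^ J) - W f (x + s + 2 ^ J) L')]
      have h5 := sum_le_sum h4
      rw [sum_add_distrib, ← mul_sum, ← mul_sum] at h5
      rw [e1, pow_succ (3 / 2 : ℝ), pow_succ (2 : ℝ) J]
      nlinarith

end Pool.Agent.Q285.QT
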