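import Pool.Agent.Q152.QT.StmU

/-!
# Project QT of helper152: lemma job QU3 (change of the height)
-/

set_option autoImplicit false

namespace Pool.Agent.Q285.QT

open Finset Pool.Agent.Q152.QT

/-- JOB QU3 -/
theorem t_CompN : S_CompN := by
  classical
  intro δ hδ
  obtain ⟨q, hq⟩ := exists_nat_ge (3 / δ)
  refine ⟨q + 1, by omega, ?_⟩
  intro f N' N h hN' hN hD H t
  obtain ⟨D, hDe⟩ := Nat.exists_eq_add_of_le hN
  have hDs : N - N' = D := by omega
  rw [hDs] at hD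
  have ht := H t
  obtain ⟨p, hp⟩ : ∃ p : ℕ → Prop, p = fun x =>
      Pool.Agent.Q163.GC.W f x h ≤ t * √(6 / Real.pi ^ 2 * h) := ⟨_, rfl⟩
  obtain ⟨A, hA⟩ : ∃ A : ℕ, A = ((Ico N (2 * N)).filter p).card := ⟨_, rfl⟩
  obtain ⟨B, hB⟩ : ∃ B : ℕ, B = ((Ico N' (2 * N')).filter p).card := ⟨_, rfl⟩
  have hFA : Fc f N h t = (A : ℝ) / N := by
    rw [hA, hp]
    unfold Fc
    congr
  have hFB : Fc f N' h t = (B : ℝ) / N' := by
    rw [hB, hp]
    unfold Fc
    congr
  have hAB : A ≤ B + 2 * D := by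
    rw [hA, hB]
    have h1 : (Ico N (2 * N)).filter p ⊆ (Ico N' (2 * N')).filter p ∪ Ico (2 * N') (2 * N) := by
      intro x hx
      rw [mem_filter, mem_Ico] at hx
      rw [mem_union, mem_filter, mem_Ico, mem_Ico]
      rcases Nat.lt_or_ge x (2 * N') with h2 | h2
      · left; exact ⟨⟨by omega, h2⟩, hx.2⟩
      · right; exact ⟨h2, hx.1.2⟩
    refine (card_le_card h1).trans ((card_union_le _ _).trans ?_)
    rw [Nat.card_Ico]
    omega
  have hBA : B ≤ A + D := by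
    rw [hA, hB]
    have h1 : (Ico N' (2 * N')).filter p ⊆ (Ico N (2 * N)).filter p ∪ Ico N' N := by
      intro x hx
      rw [mem_filter, mem_Ico] at hx
      rw [mem_union, mem_filter, mem_Ico, mem_Ico]
      rcases Nat.lt_or_ge x N with h2 | h2
      · right; exact ⟨hx.1.1, h2⟩
      · left; exact ⟨⟨h2, by omega⟩, hx.2⟩
    refine (card_le_card h1).trans ((card_union_le _ _).trans ?_)
    rw [Nat.card_Ico]
    omega
  have hBN : B ≤ N' := by
    rw [hB]
    refine (card_filter_le _ _).trans ?_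
    rw [Nat.card_Ico]
    omega
  have hN'0 : (0 : ℝ) < N' := by exact_mod_cast hN'
  have hNr : (N : ℝ) = N' + D := by rw [hDe]; push_cast; ring
  have hN0 : (0 : ℝ) < N := by rw [hNr]; positivity
  have hABr : (A : ℝ) ≤ B + 2 * D := by exact_mod_cast hAB
  have hBAr : (B : ℝ) ≤ A + D := by exact_mod_cast hBA
  have hBNr : (B : ℝ) ≤ N' := by exact_mod_cast hBN
  have hA0 : (0 : ℝ) ≤ A := Nat.cast_nonneg A
  have hB0 : (0 : ℝ) ≤ B := Nat.cast_nonneg B
  have hD0 : (0 : ℝ) ≤ D := Nat.cast_nonneg D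
  have hDr : ((q : ℝ) + 1) * D ≤ N' := by exact_mod_cast hD
  -- the difference of the two proportions
  have hdiff : |(A : ℝ) / N - (B : ℝ) / N'| ≤ 3 * D / N' := by
    have e : (A : ℝ) / N - (B : ℝ) / N' = (A * N' - B * N) / (N * N') := by
      field_simp
    rw [e, abs_div, abs_of_pos (mul_pos hN0 hN'0), div_le_div_iff₀ (mul_pos hN0 hN'0) hN'0]
    have h1 : |(A : ℝ) * N' - B * N| ≤ 3 * D * N' := by
      rw [hNr, abs_le]
      constructor
      · nlinarith [mul_nonneg hD0 (sub_nonneg.2 hBNr), mul_nonneg (sub_nonneg.2 hBAr) hN'0.le]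
      · nlinarith [mul_nonneg (sub_nonneg.2 hABr) hN'0.le, mul_nonneg hB0 hD0]
    calc |(A : ℝ) * N' - B * N| * N' ≤ 3 * D * N' * N' := mul_le_mul_of_nonneg_right h1 hN'0.le
      _ ≤ 3 * D * (N * N') := by
          have : (N' : ℝ) ≤ N := by rw [hNr]; linarith
          have h2 : 0 ≤ 3 * (D : ℝ) * N' := by positivity
          nlinarith
  have hδD : 3 * (D : ℝ) / N' ≤ δ := by
    rw [div_le_iff₀ hN'0]
    rw [div_le_iff₀ hδ] at hq
    have h1 : 3 * (D : ℝ) ≤ q * δ * D := mul_le_mul_of_nonneg_right hq hD0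
    have h2 : (q : ℝ) * D ≤ N' := by nlinarith
    nlinarith
  rw [hFA]
  rw [hFB] at ht
  have h3 : (A : ℝ) / N - Q282MM.Phi t = ((A : ℝ) / N - (B : ℝ) / N') + ((B : ℝ) / N' - Q282MM.Phi t) := by
    ring
  rw [h3]
  refine (abs_add_le _ _).trans ?_
  linarith

end Pool.Agent.Q285.QT
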