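import Pool.Agent.Q152.QT.StmV

/-!
# Project QT of helper152: lemma job QV4 (from integer windows to windows with real centre and length)
-/

set_option autoImplicit false

namespace Pool.Agent.Q285.QT

open Finset Pool.Agent.Q152.QT MeasureTheory
open Pool.Agent.Q163.GC (W Mf)

/-- JOB QV4 -/
theorem t_RealUp : S_RealUp := by
  intro f r X H hH hX
  obtain ⟨θ, hθ⟩ : ∃ θ : ℝ, θ = H - ⌊H⌋₊ := ⟨_, rfl⟩
  have θ0 : 0 ≤ θ := by
    have := Nat.floor_le (by linarith : 0 ≤ H)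
    rw [hθ]; linarith
  have θ1 : θ ≤ 1 := by
    have := (Nat.lt_floor_add_one H).le
    rw [hθ]; linarith
  have h0 : ∀ v : ℝ, 0 ≤ (fun v : ℝ => v ^ (2 * r)) v := fun v => by
    change 0 ≤ v ^ (2 * r)
    rw [pow_mul]
    positivity
  obtain ⟨-, s2⟩ := Pool.Agent.Q163.GC.sandwich f (fun v => v ^ (2 * r)) h0 H (X - H / 2) (2 * X - H / 2)
    (by linarith) (by linarith) (by linarith)
  rw [sub_add_cancel, sub_add_cancel] at s2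
  obtain ⟨A, hA⟩ : ∃ A : ℕ, A = ⌊X - H / 2⌋₊ := ⟨_, rfl⟩
  obtain ⟨B, hB⟩ : ∃ B : ℕ, B = ⌊2 * X - H / 2⌋₊ := ⟨_, rfl⟩
  obtain ⟨M, hM⟩ : ∃ M : ℕ, M = ⌊X / 2⌋₊ := ⟨_, rfl⟩
  rw [← hA, ← hB] at s2
  rw [← hM]
  have a2 : X - H / 2 < A + 1 := by rw [hA]; exact Nat.lt_floor_add_one _
  have b1 : (B : ℝ) ≤ 2 * X - H / 2 := by rw [hB]; exact Nat.floor_le (by linarith)
  have m1 : (M : ℝ) ≤ X / 2 := by rw [hM]; exact Nat.floor_le (by linarith)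
  have m2 : X / 2 < M + 1 := by rw [hM]; exact Nat.lt_floor_add_one _
  have hMA : M ≤ A := by
    rw [hM, hA]
    exact Nat.floor_le_floor (by linarith)
  have hAB : A ≤ B + 1 := by
    rw [hA, hB]
    exact (Nat.floor_le_floor (by linarith)).trans (Nat.le_succ _)
  have hBM : B + 1 ≤ 4 * M := by
    have h1 : ((B + 1 : ℕ) : ℝ) < ((4 * M + 1 : ℕ) : ℝ) := by
      push_cast
      linarith
    have h2 : B + 1 < 4 * M + 1 := by exact_mod_cast h1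
    omega
  have i2 := (Pool.Agent.Q163.GC.int_int f (fun v => v ^ (2 * r)) H (by linarith) A (B + 1) hAB).2
  rw [i2] at s2
  refine s2.trans ?_
  have hsub : Ico A (B + 1) ⊆ Ico M (4 * M) := by
    intro j hj
    rw [mem_Ico] at hj ⊢
    omega
  have up : ∀ k : ℕ, ∑ m ∈ Ico A (B + 1), W f m k ^ (2 * r) ≤ ∑ m ∈ Ico M (4 * M), W f m k ^ (2 * r) :=
    fun k => sum_le_sum_of_subset_of_nonneg hsub fun _ _ _ => h0 _
  have nn : ∀ k : ℕ, 0 ≤ ∑ m ∈ Ico M (4 * M), W f m k ^ (2 * r) := fun k => sum_nonneg fun _ _ => h0 _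
  rw [sum_add_distrib, ← hθ]
  have u1 := up ⌊H⌋₊
  have u2 := up (⌊H⌋₊ + 1)
  have n1 := nn ⌊H⌋₊
  have n2 := nn (⌊H⌋₊ + 1)
  refine add_le_add ?_ ?_
  · calc (1 - θ) * ∑ m ∈ Ico A (B + 1), W f m ⌊H⌋₊ ^ (2 * r) ≤ (1 - θ) * ∑ m ∈ Ico M (4 * M), W f m ⌊H⌋₊ ^ (2 * r) :=
        mul_le_mul_of_nonneg_left u1 (by linarith)
      _ ≤ 1 * ∑ m ∈ Ico M (4 * M), W f m ⌊H⌋₊ ^ (2 * r) := mul_le_mul_of_nonneg_right (by linarith) n1
      _ = _ := one_mul _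
  · calc θ * ∑ m ∈ Ico A (B + 1), W f m (⌊H⌋₊ + 1) ^ (2 * r) ≤
          θ * ∑ m ∈ Ico M (4 * M), W f m (⌊H⌋₊ + 1) ^ (2 * r) := mul_le_mul_of_nonneg_left u2 θ0
      _ ≤ 1 * ∑ m ∈ Ico M (4 * M), W f m (⌊H⌋₊ + 1) ^ (2 * r) := mul_le_mul_of_nonneg_right θ1 n2
      _ = _ := one_mul _

end Pool.Agent.Q285.QT
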