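import Pool.Agent.Q152.QT.StmV

/-!
# Project QT of helper152: lemma job QV2 (even moments at one height and one length)
-/

set_option autoImplicit false

namespace Pool.Agent.Q285.QT

open Finset Pool.Agent.Q152.QT

/-- JOB QV2 -/
theorem t_SndR (h3 : S_Cnt) (h4 : S_Odd) (h5 : S_Char) (h7 : S_Mean) (h8 : S_Pairs) : S_SndR := by
  intro r ε hε
  obtain ⟨c1, C1, hc1, hC1, H1⟩ := mom h3 h4 h7 (2 * r) ε hε
  obtain ⟨c2, A2, N2, hc2, H2⟩ := exc h5 h8 (2 * r) ε hε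
  obtain ⟨κ, hκd⟩ : ∃ κ : ℝ, κ = 6 / Real.pi ^ 2 := ⟨_, rfl⟩
  have hκ : 0 ≤ κ := by rw [hκd]; positivity
  have hK0 : 0 ≤ (gm (2 * r) : ℝ) * κ ^ r + C1 + 1 := by positivity
  refine ⟨c2, (gm (2 * r) : ℝ) * κ ^ r + C1 + 1, A2, max N2 1, hc2, hK0, ?_⟩
  intro g N h P hg hN h1 h2 hP
  have hN2 : N2 ≤ N := (le_max_left _ _).trans hN
  have hN1' : 1 ≤ N := (le_max_right _ _).trans hN
  have hN0 : (0 : ℝ) < N := by exact_mod_cast hN1'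
  have hN1 : (1 : ℝ) ≤ N := by exact_mod_cast hN1'
  have hh1R : (1 : ℝ) ≤ h := le_trans (Real.one_le_rpow hN1 hε.le) h1
  have hh0 : (0 : ℝ) < h := by linarith
  have hsh : √(h : ℝ) ^ (2 * r) = (h : ℝ) ^ r := by rw [pow_mul, Real.sq_sqrt hh0.le]
  refine ⟨_, H2 g N h P hg hN2 h1 h2 hP, ?_⟩
  intro m hmP hmo hmc hmE
  have a1 := H1 g N h m hg hN1' h1 h2 hmc
  have a2 : |Tk (at' (k := 2 * r) g) N h m| ≤ N * √(h : ℝ) ^ (2 * r) * (N : ℝ) ^ (-c2) := by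
    by_contra hc
    apply hmE
    rw [mem_filter]
    exact ⟨mem_range.2 (by omega), hmo, not_le.1 hc⟩
  have hκh : √(6 / Real.pi ^ 2 * h) ^ (2 * r) = κ ^ r * (h : ℝ) ^ r := by
    rw [← hκd, pow_mul, Real.sq_sqrt (by positivity), mul_pow]
  rw [hκh, hsh] at a1
  rw [hsh] at a2
  obtain ⟨q, hq⟩ : ∃ q : ℝ, q = (h : ℝ) ^ r := ⟨_, rfl⟩
  have hq0 : 0 < q := by rw [hq]; positivity
  rw [← hq] at a1 a2 ⊢
  have b1 : (N : ℝ) ^ (-c1) ≤ 1 := Real.rpow_le_one_of_one_le_of_nonpos hN1 (by linarith)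
  have b2 : (N : ℝ) ^ (-c2) ≤ 1 := Real.rpow_le_one_of_one_le_of_nonpos hN1 (by linarith)
  have b3 : |Tk (at' (k := 2 * r) g) N h m| / N ≤ q := by
    rw [div_le_iff₀ hN0]
    refine a2.trans ?_
    have h9 : 0 ≤ (N : ℝ) * q := by positivity
    nlinarith
  have b4 : C1 * q * (N : ℝ) ^ (-c1) ≤ C1 * q := mul_le_of_le_one_right (by positivity) b1
  have b5 := (abs_le.1 a1).2
  have b6 : (∑ x ∈ Ico N (2 * N), Wm g h m x ^ (2 * r)) / N ≤ ((gm (2 * r) : ℝ) * κ ^ r + C1 + 1) * q := by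
    have e1 : ((gm (2 * r) : ℝ) * κ ^ r + C1 + 1) * q = (gm (2 * r) : ℝ) * (κ ^ r * q) + C1 * q + q := by ring
    rw [e1]
    linarith
  rwa [div_le_iff₀ hN0] at b6

end Pool.Agent.Q285.QT
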