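import Pool.Agent.Q152.QT.StmV
import Pool.Agent.H999R5.Inj.T_GAU

/-!
# Project QT of helper152: lemma job QV3 (from the law and a bound for one moment to the moments)
-/

set_option autoImplicit false
set_option linter.all false

namespace Pool.Agent.Q285.QT

open Finset Pool.Agent.Q152.QT MeasureTheory ProbabilityTheory
open Pool.Agent.H999R5.Inj (GAUx.rec_one GAUx.int_pow)

/-- the truncation -/
noncomputable def cl (T z : ℝ) : ℝ := max (-T) (min z T)

theorem cl_meas (T : ℝ) : Measurable (cl T) := by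
  unfold cl
  fun_prop

theorem cl_mem {T : ℝ} (hT : 0 ≤ T) (z : ℝ) : -T ≤ cl T z ∧ cl T z ≤ T := by
  unfold cl
  exact ⟨le_max_left _ _, max_le (by linarith) (min_le_right _ _)⟩

theorem cl_abs {T : ℝ} (hT : 0 ≤ T) (z : ℝ) : |cl T z| ≤ T := abs_le.2 (cl_mem hT z)

theorem cl_eq {T z : ℝ} (h : |z| ≤ T) : cl T z = z := by
  unfold cl
  rw [min_eq_left (abs_le.1 h).2, max_eq_right (abs_le.1 h).1]

theorem set_eq {T : ℝ} (hT : 0 ≤ T) (z : ℝ) : Set.Ico (-T) T ∩ {t | z ≤ t} = Set.Ico (cl T z) T := by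
  ext t
  simp only [Set.mem_inter_iff, Set.mem_Ico, Set.mem_setOf_eq]
  unfold cl
  constructor
  · rintro ⟨⟨h1, h2⟩, h3⟩
    exact ⟨max_le h1 ((min_le_left _ _).trans h3), h2⟩
  · rintro ⟨h1, h2⟩
    refine ⟨⟨(le_max_left _ _).trans h1, h2⟩, ?_⟩
    have h3 := (le_max_right (-T) (min z T)).trans h1
    rcases min_le_iff.1 h3 with h4 | h4
    · exact h4
    · linarith

/-- the inner integral -/
theorem inner (m : ℕ) {T : ℝ} (hT : 0 ≤ T) (z : ℝ) :
    ∫ t in Set.Ico (-T) T, Set.indicator {t | z ≤ t} (fun t => ((m : ℝ) + 1) * t ^ m) t =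
      T ^ (m + 1) - cl T z ^ (m + 1) := by
  have hm : MeasurableSet {t : ℝ | z ≤ t} := measurableSet_Ici
  rw [setIntegral_indicator hm, set_eq hT, integral_Ico_eq_integral_Ioo,
    ← integral_Ioc_eq_integral_Ioo, ← intervalIntegral.integral_of_le (cl_mem hT z).2,
    intervalIntegral.integral_const_mul, integral_pow]
  have : ((m : ℝ) + 1) ≠ 0 := by positivity
  field_simp

section

variable {Ω : Type} [MeasurableSpace Ω] (P : Measure Ω) [IsProbabilityMeasure P] (Z : Ω → ℝ) (hZ : Measurable Z)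

include hZ in
/-- the truncated moment in terms of the distribution function -/
theorem trunc (m : ℕ) {T : ℝ} (hT : 0 ≤ T) :
    ∫ ω, cl T (Z ω) ^ (m + 1) ∂P =
      T ^ (m + 1) - ∫ t in Set.Ico (-T) T, ((m : ℝ) + 1) * t ^ m * P.real {ω | Z ω ≤ t} := by
  have hmeas : Measurable fun p : Ω × ℝ => Set.indicator {t | Z p.1 ≤ t} (fun t => ((m : ℝ) + 1) * t ^ m) p.2 := by
    have h1 : (fun p : Ω × ℝ => Set.indicator {t | Z p.1 ≤ t} (fun t => ((m : ℝ) + 1) * t ^ m) p.2) =
        Set.indicator {p : Ω × ℝ | Z p.1 ≤ p.2} fun p => ((m : ℝ) + 1) * p.2 ^ m := by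
      funext p
      rfl
    rw [h1]
    exact Measurable.indicator (by fun_prop) (measurableSet_le (hZ.comp measurable_fst) measurable_snd)
  have hint : Integrable (Function.uncurry fun (ω : Ω) (t : ℝ) =>
      Set.indicator {t | Z ω ≤ t} (fun t => ((m : ℝ) + 1) * t ^ m) t) (P.prod (volume.restrict (Set.Ico (-T) T))) := by
    refine Integrable.mono' (g := fun _ => ((m : ℝ) + 1) * T ^ m) (integrable_const _)
      hmeas.aestronglyMeasurable ?_
    have h1 : ∀ᵐ p ∂(P.prod (volume.restrict (Set.Ico (-T) T))), p.2 ∈ Set.Ico (-T) T := by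
      have h2 : MeasurableSet {p : Ω × ℝ | p.2 ∈ Set.Ico (-T) T} := measurable_snd measurableSet_Ico
      refine (Measure.ae_prod_iff_ae_ae h2).2 ?_
      exact Filter.Eventually.of_forall fun ω => ae_restrict_mem measurableSet_Ico
    filter_upwards [h1] with p hp
    have hb : ‖((m : ℝ) + 1) * p.2 ^ m‖ ≤ ((m : ℝ) + 1) * T ^ m := by
      rw [Real.norm_eq_abs, abs_mul, abs_of_nonneg (by positivity : (0 : ℝ) ≤ (m : ℝ) + 1), abs_pow]
      have h3 : |p.2| ≤ T := abs_le.2 ⟨hp.1, hp.2.le⟩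
      exact mul_le_mul_of_nonneg_left (pow_le_pow_left₀ (abs_nonneg _) h3 m) (by positivity)
    change ‖Set.indicator {t | Z p.1 ≤ t} (fun t => ((m : ℝ) + 1) * t ^ m) p.2‖ ≤ _
    exact (norm_indicator_le_norm_self _ _).trans hb
  have hswap := integral_integral_swap hint
  have h1 : ∫ ω, (∫ t in Set.Ico (-T) T, Set.indicator {t | Z ω ≤ t} (fun t => ((m : ℝ) + 1) * t ^ m) t) ∂P =
      T ^ (m + 1) - ∫ ω, cl T (Z ω) ^ (m + 1) ∂P := by
    have h2 : ∀ ω, ∫ t in Set.Ico (-T) T, Set.indicator {t | Z ω ≤ t} (fun t => ((m : ℝ) + 1) * t ^ m) t =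
        T ^ (m + 1) - cl T (Z ω) ^ (m + 1) := fun ω => inner m hT (Z ω)
    simp_rw [h2]
    rw [integral_sub (integrable_const _), integral_const, probReal_univ, one_smul]
    refine Integrable.mono' (g := fun _ => T ^ (m + 1)) (integrable_const _)
      (((cl_meas T).comp hZ).pow_const _).aestronglyMeasurable ?_
    refine Filter.Eventually.of_forall fun ω => ?_
    rw [Real.norm_eq_abs, abs_pow]
    exact pow_le_pow_left₀ (abs_nonneg _) (cl_abs hT _) _
  have h3 : ∫ t in Set.Ico (-T) T, ∫ ω, Set.indicator {t | Z ω ≤ t} (fun t => ((m : ℝ) + 1) * t ^ m) t ∂P =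
      ∫ t in Set.Ico (-T) T, ((m : ℝ) + 1) * t ^ m * P.real {ω | Z ω ≤ t} := by
    refine integral_congr_ae (Filter.Eventually.of_forall fun t => ?_)
    change ∫ ω, Set.indicator {t | Z ω ≤ t} (fun t => ((m : ℝ) + 1) * t ^ m) t ∂P = _
    have h4 : (fun ω => Set.indicator {t | Z ω ≤ t} (fun t => ((m : ℝ) + 1) * t ^ m) t) =
        Set.indicator {ω | Z ω ≤ t} fun _ => ((m : ℝ) + 1) * t ^ m := by
      funext ω
      rfl
    rw [h4, integral_indicator_const _ (measurableSet_le hZ measurable_const), smul_eq_mul, mul_comm]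
  rw [h1] at hswap
  rw [h3] at hswap
  linarith

theorem cdf_int (m : ℕ) {T : ℝ} :
    IntegrableOn (fun t => ((m : ℝ) + 1) * t ^ m * P.real {ω | Z ω ≤ t}) (Set.Ico (-T) T) := by
  have hmono : Monotone fun t => P.real {ω | Z ω ≤ t} := fun s t hst =>
    measureReal_mono (fun ω hω => le_trans hω hst)
  refine Integrable.mono' (g := fun t => ((m : ℝ) + 1) * |t| ^ m) ?_ ?_ ?_
  · exact (Continuous.integrableOn_Icc (by fun_prop)).mono_set Set.Ico_subset_Icc_self
  · exact ((Measurable.mul (by fun_prop) hmono.measurable)).aestronglyMeasurable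
  · refine Filter.Eventually.of_forall fun t => ?_
    rw [Real.norm_eq_abs, abs_mul, abs_mul, abs_pow, abs_of_nonneg (by positivity : (0 : ℝ) ≤ (m : ℝ) + 1),
      abs_of_nonneg (measureReal_nonneg)]
    exact mul_le_of_le_one_right (by positivity) measureReal_le_one

include hZ in
/-- the tail of the moment -/
theorem tail (k : ℕ) {T : ℝ} (hT : 1 ≤ T) (hi : Integrable (fun ω => Z ω ^ k) P)
    (hi2 : Integrable (fun ω => Z ω ^ (2 * k + 2)) P) :
    |∫ ω, Z ω ^ k ∂P - ∫ ω, cl T (Z ω) ^ k ∂P| ≤ 2 / T * ∫ ω, Z ω ^ (2 * k + 2) ∂P := by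
  have hT0 : 0 < T := by linarith
  have hic : Integrable (fun ω => cl T (Z ω) ^ k) P := by
    refine Integrable.mono' (g := fun _ => T ^ k) (integrable_const _)
      (((cl_meas T).comp hZ).pow_const _).aestronglyMeasurable ?_
    refine Filter.Eventually.of_forall fun ω => ?_
    rw [Real.norm_eq_abs, abs_pow]
    exact pow_le_pow_left₀ (abs_nonneg _) (cl_abs hT0.le _) _
  rw [← integral_sub hi hic, ← integral_const_mul]
  refine (abs_integral_le_integral_abs).trans ?_
  refine integral_mono_of_nonneg (Filter.Eventually.of_forall fun ω => abs_nonneg _) (hi2.const_mul _)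
    (Filter.Eventually.of_forall fun ω => ?_)
  obtain ⟨z, hz⟩ : ∃ z, z = Z ω := ⟨_, rfl⟩
  change |Z ω ^ k - cl T (Z ω) ^ k| ≤ 2 / T * Z ω ^ (2 * k + 2)
  rw [← hz]
  have e1 : z ^ (2 * k + 2) = |z| ^ k * |z| ^ (k + 2) := by
    rw [← pow_add, show k + (k + 2) = 2 * (k + 1) by ring, show 2 * k + 2 = 2 * (k + 1) by ring, pow_mul, pow_mul,
      sq_abs]
  rcases le_or_gt |z| T with h | h
  · rw [cl_eq h, sub_self, abs_zero, e1]
    positivity
  · have h1 : |z ^ k - cl T z ^ k| ≤ 2 * |z| ^ k := by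
      refine (abs_sub _ _).trans ?_
      rw [abs_pow, abs_pow]
      have h2 : |cl T z| ^ k ≤ |z| ^ k := pow_le_pow_left₀ (abs_nonneg _) ((cl_abs hT0.le z).trans h.le) k
      linarith
    refine h1.trans ?_
    rw [e1]
    have h3 : T ≤ |z| ^ (k + 2) := by
      calc T = T ^ 1 := (pow_one T).symm
        _ ≤ T ^ (k + 2) := pow_le_pow_right₀ hT (by omega)
        _ ≤ |z| ^ (k + 2) := pow_le_pow_left₀ hT0.le h.le _
    have h4 : 0 ≤ |z| ^ k := by positivity
    calc 2 * |z| ^ k = 2 / T * (|z| ^ k * T) := by field_simp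
      _ ≤ 2 / T * (|z| ^ k * |z| ^ (k + 2)) :=
        mul_le_mul_of_nonneg_left (mul_le_mul_of_nonneg_left h3 h4) (by positivity)

end

/-- comparison of two laws -/
theorem compare {Ω Ω' : Type} [MeasurableSpace Ω] [MeasurableSpace Ω'] (P : Measure Ω) [IsProbabilityMeasure P]
    (P' : Measure Ω') [IsProbabilityMeasure P'] (Z : Ω → ℝ) (hZ : Measurable Z) (Z' : Ω' → ℝ) (hZ' : Measurable Z')
    (m : ℕ) {T η : ℝ} (hT : 0 ≤ T) (hη : ∀ t, |P.real {ω | Z ω ≤ t} - P'.real {ω | Z' ω ≤ t}| ≤ η) :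
    |∫ ω, cl T (Z ω) ^ (m + 1) ∂P - ∫ ω, cl T (Z' ω) ^ (m + 1) ∂P'| ≤ 2 * ((m : ℝ) + 1) * T ^ (m + 1) * η := by
  rw [trunc P Z hZ m hT, trunc P' Z' hZ' m hT]
  have e1 : ∀ a b c : ℝ, a - b - (a - c) = c - b := fun a b c => by ring
  rw [e1, ← integral_sub (cdf_int P' Z' m) (cdf_int P Z m)]
  have h1 := norm_setIntegral_le_of_norm_le_const (μ := volume) (s := Set.Ico (-T) T)
    (f := fun t => ((m : ℝ) + 1) * t ^ m * P'.real {ω | Z' ω ≤ t} - ((m : ℝ) + 1) * t ^ m * P.real {ω | Z ω ≤ t})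
    (C := ((m : ℝ) + 1) * T ^ m * η) (by simp) (fun t ht => by
      rw [← mul_sub, Real.norm_eq_abs, abs_mul, abs_mul, abs_pow,
        abs_of_nonneg (by positivity : (0 : ℝ) ≤ (m : ℝ) + 1)]
      have h2 : |t| ≤ T := abs_le.2 ⟨ht.1, ht.2.le⟩
      have h3 := hη t
      rw [abs_sub_comm] at h3
      refine mul_le_mul ?_ h3 (abs_nonneg _) (by positivity)
      exact mul_le_mul_of_nonneg_left (pow_le_pow_left₀ (abs_nonneg _) h2 m) (by positivity))
  rw [Real.norm_eq_abs] at h1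
  refine h1.trans (le_of_eq ?_)
  rw [Real.volume_real_Ico_of_le (by linarith)]
  ring

/-- the moments of the normal law -/
theorem gauss_mom (k : ℕ) : ∫ x, x ^ k ∂(gaussianReal 0 1) = (gm k : ℝ) := by
  induction k using Nat.strong_induction_on with
  | _ k ih =>
    rcases k with _ | k
    · simp [gm]
    · rcases k with _ | k
      · have h1 := GAUx.rec_one 0
        simp [gm] at h1 ⊢
      · have h1 := GAUx.rec_one (k + 1)
        rw [Nat.add_sub_cancel, ih k (by omega)] at h1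
        rw [h1]
        unfold gm
        by_cases hk : Even k
        · rw [if_pos hk, if_pos (by simp [Nat.even_add_one, hk])]
          rcases k with _ | k
          · simp
          · rw [show k + 1 + 1 + 1 - 1 = k + 2 by omega, Nat.doubleFactorial_add_two,
              show k + 1 - 1 = k by omega]
            push_cast
            ring
        · rw [if_neg hk, if_neg (by simpa [Nat.even_add_one] using hk)]
          simp

/-- JOB QV3 -/
theorem t_Soft : S_Soft := by
  intro k K δ hδ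
  rcases k with _ | m
  · refine ⟨1, one_pos, ?_⟩
    intro X Z hX _ _ _ _
    have h1 : (∫ x in X..2 * X, Z x ^ 0) / X = 1 := by
      simp only [pow_zero, intervalIntegral.integral_const, smul_eq_mul, mul_one]
      field_simp
      ring
    rw [h1]
    simp [gm, hδ.le]
  obtain ⟨G, hG⟩ : ∃ G : ℝ, G = (gm (2 * (m + 1) + 2) : ℝ) := ⟨_, rfl⟩
  have hG0 : 0 ≤ G := by rw [hG]; positivity
  obtain ⟨T, hT⟩ : ∃ T : ℝ, T = 1 + 4 * (|K| + G) / δ := ⟨_, rfl⟩
  have hT1 : 1 ≤ T := by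
    rw [hT]
    have : 0 ≤ 4 * (|K| + G) / δ := by positivity
    linarith
  have hT0 : 0 < T := by linarith
  have hTδ : 2 / T * (|K| + G) ≤ δ / 2 := by
    rw [div_mul_eq_mul_div, div_le_iff₀ hT0, hT]
    have : δ / 2 * (1 + 4 * (|K| + G) / δ) = δ / 2 + 2 * (|K| + G) := by
      field_simp
      ring
    rw [this]
    linarith
  obtain ⟨c, hc⟩ : ∃ c : ℝ, c = 2 * ((m : ℝ) + 1) * T ^ (m + 1) := ⟨_, rfl⟩
  have hc0 : 0 < c := by rw [hc]; positivity
  refine ⟨δ / (2 * c), by positivity, ?_⟩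
  intro X Z hX hZ ⟨D, hD⟩ hlaw hmom
  obtain ⟨P, hP⟩ : ∃ P : Measure ℝ, P = (ENNReal.ofReal X)⁻¹ • volume.restrict (Set.Icc X (2 * X)) := ⟨_, rfl⟩
  have hXe : ENNReal.ofReal X ≠ 0 := by
    rw [Ne, ENNReal.ofReal_eq_zero, not_le]
    exact hX
  have hprob : IsProbabilityMeasure P := by
    constructor
    rw [hP, Measure.smul_apply, Measure.restrict_apply_univ, Real.volume_Icc, smul_eq_mul,
      show 2 * X - X = X by ring]
    exact ENNReal.inv_mul_cancel hXe ENNReal.ofReal_ne_top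
  have hPint : ∀ φ : ℝ → ℝ, ∫ x, φ x ∂P = (∫ x in X..2 * X, φ x) / X := by
    intro φ
    rw [hP, integral_smul_measure, integral_Icc_eq_integral_Ioc, ← intervalIntegral.integral_of_le (by linarith),
      ENNReal.toReal_inv, ENNReal.toReal_ofReal hX.le, smul_eq_mul]
    field_simp
  have hPcdf : ∀ t : ℝ, P.real {x | Z x ≤ t} =
      (volume {x : ℝ | x ∈ Set.Icc X (2 * X) ∧ Z x ≤ t}).toReal / X := by
    intro t
    have h1 : P {x | Z x ≤ t} = (ENNReal.ofReal X)⁻¹ * volume {x : ℝ | x ∈ Set.Icc X (2 * X) ∧ Z x ≤ t} := by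
      rw [hP, Measure.smul_apply, Measure.restrict_apply (measurableSet_le hZ measurable_const), smul_eq_mul]
      congr 2
      ext x
      simp only [Set.mem_inter_iff, Set.mem_setOf_eq]
      tauto
    rw [Measure.real, h1, ENNReal.toReal_mul, ENNReal.toReal_inv, ENNReal.toReal_ofReal hX.le]
    field_simp
  have hbd : ∀ n : ℕ, Integrable (fun x => Z x ^ n) P := by
    intro n
    refine Integrable.mono' (g := fun _ => |D| ^ n) (integrable_const _) (hZ.pow_const _).aestronglyMeasurable ?_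
    refine Filter.Eventually.of_forall fun x => ?_
    rw [Real.norm_eq_abs, abs_pow]
    exact pow_le_pow_left₀ (abs_nonneg _) ((hD x).trans (le_abs_self D)) _
  have hγint : ∀ n : ℕ, Integrable (fun x : ℝ => x ^ n) (gaussianReal 0 1) := fun n => GAUx.int_pow n
  have t1 := tail P Z hZ (m + 1) hT1 (hbd _) (hbd _)
  have t2 := tail (gaussianReal 0 1) (fun x : ℝ => x) measurable_id (m + 1) hT1 (hγint _) (hγint _)
  have hη : ∀ t, |P.real {x | Z x ≤ t} - (gaussianReal 0 1).real {x : ℝ | x ≤ t}| ≤ δ / (2 * c) := by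
    intro t
    rw [hPcdf]
    exact hlaw t
  have t3 := compare P (gaussianReal 0 1) Z hZ (fun x : ℝ => x) measurable_id m hT0.le hη
  rw [gauss_mom, gauss_mom, ← hG] at t2
  rw [hPint, hPint (fun x => Z x ^ (2 * (m + 1) + 2))] at t1
  have e1 : c * (δ / (2 * c)) = δ / 2 := by field_simp
  rw [← hc, e1] at t3
  have hK : (∫ x in X..2 * X, Z x ^ (2 * (m + 1) + 2)) / X ≤ |K| := hmom.trans (le_abs_self K)
  have t4 : 2 / T * ((∫ x in X..2 * X, Z x ^ (2 * (m + 1) + 2)) / X) ≤ 2 / T * |K| :=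
    mul_le_mul_of_nonneg_left hK (by positivity)
  have e2 : 2 / T * (|K| + G) = 2 / T * |K| + 2 / T * G := by ring
  rw [e2] at hTδ
  rw [abs_le] at t1 t2 t3 ⊢
  constructor <;> linarith [t1.1, t1.2, t2.1, t2.2, t3.1, t3.2]

end Pool.Agent.Q285.QT
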