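import Pool.Agent.Q152.QT.StmW
import Pool.Agent.Q163.GC.Int

/-!
# Project QT of helper152: lemma job QW3 (uniform version of `at_points` and `interp` of helper163)
-/

set_option autoImplicit false

namespace Pool.Agent.Q285.QT

open Finset Filter Pool.Agent.Q152.QT
open Pool.Agent.Q163.GC

/-- all window lengths at the points `j ^ A` -/
lemma at_pointsU (A : ℕ) (hA : 13 ≤ A) : ∃ j0 : ℕ, ∀ f : ℕ → ℝ, (∀ n, |f n| ≤ 1) → ∀ j : ℕ, j0 ≤ j →
    Grid f A j → Grid f A (j + 1) → ∀ h : ℕ, h * j ^ 13 ≤ j ^ A →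
      |BB f (j ^ A) h - DD f (j ^ A) h| ≤ 60 * (h * (j : ℝ) ^ A) / Real.sqrt j := by
  have hlim : ∀ᶠ j : ℕ in Filter.atTop, ((j + 1 : ℕ) : ℝ) ^ A ≤ 2 * (j : ℝ) ^ A ∧
      ((j + 1 : ℕ) : ℝ) ^ 12 ≤ 2 * (j : ℝ) ^ 12 := by
    have h1 : ∀ B : ℕ, ∀ᶠ j : ℕ in Filter.atTop, ((j + 1 : ℕ) : ℝ) ^ B ≤ 2 * (j : ℝ) ^ B := by
      intro B
      have t1 : Filter.Tendsto (fun j : ℕ => (1 + 1 / (j : ℝ)) ^ B) Filter.atTop (nhds ((1 + 0) ^ B)) :=
        (tendsto_const_nhds.add tendsto_one_div_atTop_nhds_zero_nat).pow B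
      rw [add_zero, one_pow] at t1
      filter_upwards [t1.eventually_le_const (by norm_num : (1 : ℝ) < 2),
        Filter.eventually_ge_atTop 1] with j hj hj1
      have hj0 : (0 : ℝ) < j := by exact_mod_cast hj1
      have : ((j + 1 : ℕ) : ℝ) = j * (1 + 1 / (j : ℝ)) := by
        push_cast
        field_simp
      rw [this, mul_pow]
      nlinarith [pow_pos hj0 B]
    exact (h1 A).and (h1 12)
  obtain ⟨j1, hj1⟩ := Filter.eventually_atTop.1 hlim
  refine ⟨max j1 2, fun f hf j hj hG hG' h hh => ?_⟩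
  obtain ⟨g1, g2⟩ := hj1 j (le_of_max_le_left hj)
  have hj2 : 2 ≤ j := le_of_max_le_right hj
  have hjR : (2 : ℝ) ≤ j := by exact_mod_cast hj2
  have hj0 : (0 : ℝ) < j := by linarith
  have hs1 : 1 ≤ Real.sqrt j := Real.one_le_sqrt.2 (by linarith)
  have hs0 : 0 < Real.sqrt j := by linarith
  have hss : Real.sqrt j * Real.sqrt j = j := Real.mul_self_sqrt hj0.le
  have hsj : Real.sqrt j ≤ j := by nlinarith
  set N : ℝ := (j : ℝ) ^ A with hN
  have hN0 : 0 < N := by positivity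
  have hdiv : ∀ X : ℝ, 0 ≤ X → X / j ≤ X / Real.sqrt j := fun X hX =>
    div_le_div_of_nonneg_left hX hs0 hsj
  rcases Nat.eq_zero_or_pos h with rfl | hpos
  · have e1 : BB f (j ^ A) 0 = 0 := by unfold BB; simp [W_zero]
    have e2 : DD f (j ^ A) 0 = 0 := by unfold DD; simp
    rw [e1, e2]
    simp
  have hhR : (0 : ℝ) < h := by exact_mod_cast hpos
  rcases le_or_gt h (2 * j) with hsmall | hbig
  · have h1 := hG 0 h hpos hsmall (by
      rw [pow_zero, mul_one]
      refine le_trans ?_ hh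
      exact Nat.mul_le_mul_left _ (Nat.pow_le_pow_right (by omega) (by norm_num)))
    rw [pow_zero, mul_one] at h1
    refine h1.trans ((hdiv _ (by positivity)).trans ?_)
    refine div_le_div_of_nonneg_right ?_ hs0.le
    nlinarith [mul_pos hhR hN0]
  · set i := Nat.log 2 (h / j) with hi
    have hq : h / j ≠ 0 := by
      have := (Nat.le_div_iff_mul_le (by omega : 0 < j)).2 hbig.le
      omega
    have p1 : 2 ^ i ≤ h / j := Nat.pow_log_le_self 2 hq
    have p2 : h / j < 2 ^ (i + 1) := Nat.lt_pow_succ_log_self (by norm_num) _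
    have p3 : 2 ^ i * j ≤ h := (Nat.le_div_iff_mul_le (by omega)).1 p1
    have p4 : h < 2 ^ (i + 1) * j := (Nat.div_lt_iff_lt_mul (by omega)).1 p2
    set u := h / 2 ^ i with hu
    set r := h % 2 ^ i with hr
    have hpow : 0 < 2 ^ i := by positivity
    have q1 : u * 2 ^ i + r = h := by
      rw [hu, hr, mul_comm]
      exact Nat.div_add_mod h (2 ^ i)
    have q2 : r < 2 ^ i := Nat.mod_lt _ hpow
    have q3 : j ≤ u := (Nat.le_div_iff_mul_le hpow).2 (by rw [mul_comm]; exact p3)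
    have q4 : u ≤ 2 * j := by
      have : u < 2 * j := (Nat.div_lt_iff_lt_mul hpow).2 (by
        calc h < 2 ^ (i + 1) * j := p4
          _ = 2 * j * 2 ^ i := by rw [pow_succ]; ring)
      exact this.le
    have q5 : u * 2 ^ i ≤ h := by omega
    have hjA : 1 ≤ j ^ 13 := Nat.one_le_pow _ _ (by omega)
    -- the main part
    have m1 := hG i u (by omega) q4 (by
      refine le_trans ?_ hh
      exact Nat.mul_le_mul q5 (Nat.pow_le_pow_right (by omega) (by norm_num)))
    -- the remainder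
    have hsp : j ^ A + 2 * h ≤ (j + 1) ^ A := by
      have b1 : j ^ A + j ^ (A - 1) ≤ (j + 1) ^ A := by
        obtain ⟨A', rfl⟩ : ∃ A', A = A' + 1 := ⟨A - 1, by omega⟩
        rw [Nat.add_sub_cancel, pow_succ, pow_succ]
        calc j ^ A' * j + j ^ A' = j ^ A' * (j + 1) := by ring
          _ ≤ (j + 1) ^ A' * (j + 1) := Nat.mul_le_mul_right _ (Nat.pow_le_pow_left (by omega) _)
      have b2 : 2 * h ≤ j ^ (A - 1) := by
        have b3 : h * j ^ 13 ≤ j ^ (A - 13) * j ^ 13 := by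
          rw [← pow_add]
          calc h * j ^ 13 ≤ j ^ A := hh
            _ = j ^ (A - 13 + 13) := by rw [Nat.sub_add_cancel hA]
        have b4 : h ≤ j ^ (A - 13) := Nat.le_of_mul_le_mul_right b3 (by omega)
        calc 2 * h ≤ j * j ^ (A - 13) := Nat.mul_le_mul hj2 b4
          _ = j ^ (A - 13 + 1) := by rw [pow_succ]; ring
          _ ≤ j ^ (A - 1) := Nat.pow_le_pow_right (by omega) (by omega)
      omega
    have hκ : ∀ l < i, ∀ s ≤ 2 * h, Bs f s (j ^ A) (2 ^ l) ≤ 4 * N * 2 ^ l := by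
      intro l hl s hs
      refine (Bs_le f s (j ^ A) (2 ^ l) ((j + 1) ^ A) (by omega)).trans ?_
      have hl2 : 2 ^ l ≤ h := by
        calc 2 ^ l ≤ 2 ^ i := Nat.pow_le_pow_right (by norm_num) hl.le
          _ ≤ 2 ^ i * j := Nat.le_mul_of_pos_right _ (by omega)
          _ ≤ h := p3
      have c1 := hG' l 1 le_rfl (by omega) (by
        rw [one_mul]
        have c2 : (j + 1) ^ 12 ≤ 2 * j ^ 12 := by exact_mod_cast g2
        calc 2 ^ l * (j + 1) ^ 12 ≤ h * (2 * j ^ 12) := Nat.mul_le_mul hl2 c2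
          _ ≤ h * (j * j ^ 12) := Nat.mul_le_mul_left _ (Nat.mul_le_mul_right _ hj2)
          _ = h * j ^ 13 := by ring
          _ ≤ j ^ A := hh
          _ ≤ (j + 1) ^ A := Nat.pow_le_pow_left (by omega) _)
      rw [one_mul] at c1
      have c3 := DD_le hf ((j + 1) ^ A) (2 ^ l)
      have c4 := (abs_le.1 c1).2
      push_cast at c3 c4 g1
      have c5 : (2 : ℝ) ^ l * ((j : ℝ) + 1) ^ A / ((j : ℝ) + 1) ≤ 2 ^ l * ((j : ℝ) + 1) ^ A :=
        div_le_self (by positivity) (by linarith)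
      have c6 : (2 : ℝ) ^ l * ((j : ℝ) + 1) ^ A ≤ 2 ^ l * (2 * N) :=
        mul_le_mul_of_nonneg_left g1 (by positivity)
      linarith
    have hrem := chain f (j ^ A) i (2 * h) (4 * N) (by positivity) hκ i le_rfl r q2 (u * 2 ^ i)
      (by
        have : 2 ^ i ≤ h := le_trans (Nat.le_mul_of_pos_right _ (by omega)) p3
        omega)
    have hpi : (2 : ℝ) ^ i ≤ h / j := by
      rw [le_div_iff₀ hj0]
      exact_mod_cast p3
    have hrem' : Bs f (u * 2 ^ i) (j ^ A) r ≤ 24 * (h * N) / j := by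
      refine hrem.trans ?_
      calc 6 * (4 * N) * 2 ^ i ≤ 6 * (4 * N) * (h / j) :=
            mul_le_mul_of_nonneg_left hpi (by positivity)
        _ = 24 * (h * N) / j := by ring
    -- comparison
    set v := u * 2 ^ i with hv
    have hvR : (v : ℝ) ≤ h := by exact_mod_cast q5
    have hcomp : |BB f (j ^ A) h - BB f (j ^ A) v| ≤
        1 / Real.sqrt j * BB f (j ^ A) v + (1 + Real.sqrt j) * Bs f v (j ^ A) r := by
      unfold BB Bs
      rw [← sum_sub_distrib, mul_sum, mul_sum, ← sum_add_distrib]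
      refine (abs_sum_le_sum_abs _ _).trans (sum_le_sum fun x _ => ?_)
      rw [← q1, W_add]
      have := sq_split (W f x v) (W f (x + v) r) (1 / Real.sqrt j) (by positivity)
      rw [one_div_one_div] at this
      exact this
    have hBv : BB f (j ^ A) v ≤ 2 * (h * N) := by
      have c1 := (abs_le.1 m1).2
      have c2 := DD_le hf (j ^ A) v
      push_cast at c2
      have c3 : (v : ℝ) * N / j ≤ v * N := div_le_self (by positivity) (by linarith)
      have c4 : (v : ℝ) * N ≤ h * N := mul_le_mul_of_nonneg_right hvR hN0.le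
      linarith
    obtain ⟨d1, d2⟩ := DD_add hf (j ^ A) v r
    rw [q1] at d1 d2
    push_cast at d1 d2
    have hrR : (r : ℝ) ≤ h / j := le_trans (by exact_mod_cast q2.le) hpi
    have d3 : (r : ℝ) * N ≤ h * N / j := by
      calc (r : ℝ) * N ≤ h / j * N := mul_le_mul_of_nonneg_right hrR hN0.le
        _ = h * N / j := by ring
    have hX : 0 < h * N := by positivity
    have k1 : |BB f (j ^ A) v - DD f (j ^ A) v| ≤ h * N / Real.sqrt j := by
      refine m1.trans ((hdiv _ (by positivity)).trans ?_)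
      exact div_le_div_of_nonneg_right (mul_le_mul_of_nonneg_right hvR hN0.le) hs0.le
    have k2 : |DD f (j ^ A) v - DD f (j ^ A) h| ≤ h * N / Real.sqrt j := by
      rw [abs_sub_comm, abs_of_nonneg (by linarith)]
      have := hdiv _ hX.le
      linarith
    have k3 : |BB f (j ^ A) h - BB f (j ^ A) v| ≤ 50 * (h * N) / Real.sqrt j := by
      refine hcomp.trans ?_
      have l1 : 1 / Real.sqrt j * BB f (j ^ A) v ≤ 2 * (h * N) / Real.sqrt j := by
        calc 1 / Real.sqrt j * BB f (j ^ A) v ≤ 1 / Real.sqrt j * (2 * (h * N)) :=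
              mul_le_mul_of_nonneg_left hBv (by positivity)
          _ = 2 * (h * N) / Real.sqrt j := by ring
      have l2 : (1 + Real.sqrt j) * Bs f v (j ^ A) r ≤ 48 * (h * N) / Real.sqrt j := by
        calc (1 + Real.sqrt j) * Bs f v (j ^ A) r ≤ (2 * Real.sqrt j) * (24 * (h * N) / j) :=
              mul_le_mul (by linarith) hrem' (sum_nonneg fun _ _ => sq_nonneg _) (by positivity)
          _ = 48 * (h * N) / Real.sqrt j := by
              rw [eq_div_iff hs0.ne']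
              calc 2 * Real.sqrt j * (24 * (h * N) / j) * Real.sqrt j
                  = (Real.sqrt j * Real.sqrt j) * (48 * (h * N) / j) := by ring
                _ = 48 * (h * N) := by
                    rw [hss, mul_div_cancel₀ _ hj0.ne']
      have l3 : 2 * (h * N) / Real.sqrt j + 48 * (h * N) / Real.sqrt j = 50 * (h * N) / Real.sqrt j := by
        ring
      linarith
    have k4 : |BB f (j ^ A) h - DD f (j ^ A) h| ≤ |BB f (j ^ A) h - BB f (j ^ A) v| +
        |BB f (j ^ A) v - DD f (j ^ A) v| + |DD f (j ^ A) v - DD f (j ^ A) h| := by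
      have e1 : BB f (j ^ A) h - DD f (j ^ A) h = (BB f (j ^ A) h - BB f (j ^ A) v) +
        (BB f (j ^ A) v - DD f (j ^ A) v) + (DD f (j ^ A) v - DD f (j ^ A) h) := by ring
      rw [e1]
      exact abs_add_three _ _ _
    have k5 : 50 * (h * N) / Real.sqrt j + h * N / Real.sqrt j + h * N / Real.sqrt j ≤
        60 * (h * N) / Real.sqrt j := by
      have : 0 < h * N / Real.sqrt j := by positivity
      have e1 : 50 * (h * N) / Real.sqrt j = 50 * (h * N / Real.sqrt j) := by ring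
      have e2 : 60 * (h * N) / Real.sqrt j = 60 * (h * N / Real.sqrt j) := by ring
      rw [e1, e2]
      linarith
    linarith

/-- JOB QW3 -/
theorem t_InterpU : S_InterpU := by
  intro A hA
  obtain ⟨j0, hj0⟩ := at_pointsU A hA
  have h1 : ∀ B : ℕ, ∀ᶠ j : ℕ in atTop, (j + 1) ^ B ≤ 2 * j ^ B := by
    intro B
    have t1 : Tendsto (fun j : ℕ => (1 + 1 / (j : ℝ)) ^ B) atTop (nhds ((1 + 0) ^ B)) :=
      (tendsto_const_nhds.add tendsto_one_div_atTop_nhds_zero_nat).pow B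
    rw [add_zero, one_pow] at t1
    filter_upwards [t1.eventually_le_const (by norm_num : (1 : ℝ) < 2),
      eventually_ge_atTop 1] with j hj hj1
    have hj0 : (0 : ℝ) < j := by exact_mod_cast hj1
    have : ((j + 1 : ℕ) : ℝ) = j * (1 + 1 / (j : ℝ)) := by
      push_cast
      field_simp
    have h2 : ((j + 1 : ℕ) : ℝ) ^ B ≤ 2 * (j : ℝ) ^ B := by
      rw [this, mul_pow]
      nlinarith [pow_pos hj0 B]
    exact_mod_cast h2
  obtain ⟨j2, hj2⟩ := eventually_atTop.1 ((h1 A).and (h1 13))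
  have hA0 : (0 : ℝ) < A := by
    have : 0 < A := by omega
    exact_mod_cast this
  refine ⟨max j0 (max j2 2), 4 * A + 240, by positivity, fun f hf j N h hge hjA hjA' hG0 hG1 hG2 hh => ?_⟩
  have e0 : j0 ≤ j := le_trans (le_max_left _ _) hge
  have e2 : j2 ≤ j := le_trans (le_trans (le_max_left _ _) (le_max_right _ _)) hge
  have e3 : 2 ≤ j := le_trans (le_trans (le_max_right _ _) (le_max_right _ _)) hge
  have hN : 1 ≤ N := le_trans (Nat.one_le_pow _ _ (by omega)) hjA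
  have hNR : (1 : ℝ) ≤ N := by exact_mod_cast hN
  have hN0' : (0 : ℝ) < N := by linarith
  have hhN : (h : ℝ) ≤ N := by
    have : (1 : ℝ) ≤ (N : ℝ) ^ ((15 : ℝ) / A) := Real.one_le_rpow hNR (by positivity)
    nlinarith [Nat.cast_nonneg (α := ℝ) h]
  obtain ⟨g1, g2⟩ := hj2 j e2
  have hjR : (2 : ℝ) ≤ j := by exact_mod_cast e3
  have hjp : (0 : ℝ) < j := by linarith
  have hroot : (j : ℝ) ≤ (N : ℝ) ^ (1 / (A : ℝ)) := by
    have : ((j : ℝ) ^ (A : ℝ)) ^ (1 / (A : ℝ)) ≤ (N : ℝ) ^ (1 / (A : ℝ)) := by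
      refine Real.rpow_le_rpow (by positivity) ?_ (by positivity)
      rw [Real.rpow_natCast]
      exact_mod_cast hjA
    rwa [← Real.rpow_mul hjp.le, mul_one_div_cancel hA0.ne', Real.rpow_one] at this
  have hroot2 : (N : ℝ) ^ (1 / (A : ℝ)) ≤ 2 * j := by
    have h3 : (N : ℝ) ≤ (2 * (j : ℝ)) ^ (A : ℝ) := by
      rw [Real.rpow_natCast]
      have h4 : N ≤ (2 * j) ^ A := hjA'.le.trans (Nat.pow_le_pow_left (by omega) _)
      exact_mod_cast h4
    calc (N : ℝ) ^ (1 / (A : ℝ)) ≤ ((2 * (j : ℝ)) ^ (A : ℝ)) ^ (1 / (A : ℝ)) :=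
          Real.rpow_le_rpow hN0'.le h3 (by positivity)
      _ = 2 * j := by
          rw [← Real.rpow_mul (by positivity), mul_one_div_cancel hA0.ne', Real.rpow_one]
  have hh15 : h * j ^ 15 ≤ N := by
    have h4 : (j : ℝ) ^ 15 ≤ (N : ℝ) ^ ((15 : ℝ) / A) := by
      calc (j : ℝ) ^ 15 ≤ ((N : ℝ) ^ (1 / (A : ℝ))) ^ 15 := pow_le_pow_left₀ hjp.le hroot 15
        _ = (N : ℝ) ^ ((15 : ℝ) / A) := by
            rw [← Real.rpow_natCast, ← Real.rpow_mul hN0'.le]
            congr 1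
            push_cast
            ring
    have h5 : (h : ℝ) * (j : ℝ) ^ 15 ≤ N :=
      (mul_le_mul_of_nonneg_left h4 (Nat.cast_nonneg _)).trans hh
    exact_mod_cast h5
  have hh14 : h * j ^ 14 ≤ j ^ A := by
    have h6 : h * j ^ 14 * 2 ≤ j ^ A * 2 := by
      calc h * j ^ 14 * 2 ≤ h * j ^ 14 * j := Nat.mul_le_mul_left _ e3
        _ = h * j ^ 15 := by ring
        _ ≤ N := hh15
        _ ≤ (j + 1) ^ A := hjA'.le
        _ ≤ 2 * j ^ A := g1
        _ = j ^ A * 2 := mul_comm _ _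
    exact Nat.le_of_mul_le_mul_right h6 (by norm_num)
  have c1 : h * j ^ 13 ≤ j ^ A :=
    le_trans (Nat.mul_le_mul_left _ (Nat.pow_le_pow_right (by omega) (by norm_num))) hh14
  have c2 : h * (j + 1) ^ 13 ≤ (j + 1) ^ A := by
    calc h * (j + 1) ^ 13 ≤ h * (2 * j ^ 13) := Nat.mul_le_mul_left _ g2
      _ ≤ h * (j * j ^ 13) := Nat.mul_le_mul_left _ (Nat.mul_le_mul_right _ e3)
      _ = h * j ^ 14 := by ring
      _ ≤ j ^ A := hh14
      _ ≤ (j + 1) ^ A := Nat.pow_le_pow_left (by omega) _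
  have b1 := hj0 f hf j e0 hG0 hG1 h c1
  have b2 := hj0 f hf (j + 1) (by omega) hG1 hG2 h c2
  set X : ℝ := (h : ℝ) * (j : ℝ) ^ A with hX
  have hX0 : 0 ≤ X := by positivity
  have hsj0 : 0 < Real.sqrt j := Real.sqrt_pos.2 hjp
  have b2' : |BB f ((j + 1) ^ A) h - DD f ((j + 1) ^ A) h| ≤ 120 * X / Real.sqrt j := by
    refine b2.trans ?_
    have h6 : (((j + 1 : ℕ) : ℝ)) ^ A ≤ 2 * (j : ℝ) ^ A := by exact_mod_cast g1
    have h7 : Real.sqrt j ≤ Real.sqrt ((j + 1 : ℕ) : ℝ) := Real.sqrt_le_sqrt (by push_cast; linarith)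
    calc 60 * (h * ((j + 1 : ℕ) : ℝ) ^ A) / Real.sqrt ((j + 1 : ℕ) : ℝ)
        ≤ 60 * (h * (2 * (j : ℝ) ^ A)) / Real.sqrt j := by
          refine div_le_div₀ (by positivity) ?_ hsj0 h7
          exact mul_le_mul_of_nonneg_left (mul_le_mul_of_nonneg_left h6 (by positivity))
            (by norm_num)
      _ = 120 * X / Real.sqrt j := by rw [hX]; ring
  have hgap : (h : ℝ) * ((((j + 1) ^ A : ℕ) : ℝ) - ((j ^ A : ℕ) : ℝ)) ≤ 2 * A * X / Real.sqrt j := by
    obtain ⟨A', rfl⟩ : ∃ A', A = A' + 1 := ⟨A - 1, by omega⟩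
    have h6 : (((j + 1) ^ (A' + 1) : ℕ) : ℝ) ≤ ((j ^ (A' + 1) : ℕ) : ℝ) +
        ((A' : ℝ) + 1) * ((j : ℝ) + 1) ^ A' := by
      exact_mod_cast pow_step j A'
    have h7 : ((j : ℝ) + 1) ^ A' ≤ 2 * (j : ℝ) ^ (A' + 1) / Real.sqrt j := by
      rw [le_div_iff₀ hsj0]
      have h8 : ((j : ℝ) + 1) ^ (A' + 1) ≤ 2 * (j : ℝ) ^ (A' + 1) := by exact_mod_cast g1
      have h9 : Real.sqrt j ≤ (j : ℝ) + 1 := by
        have : Real.sqrt j ≤ j := by
          rw [Real.sqrt_le_left hjp.le]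
          nlinarith
        linarith
      calc ((j : ℝ) + 1) ^ A' * Real.sqrt j ≤ ((j : ℝ) + 1) ^ A' * ((j : ℝ) + 1) :=
            mul_le_mul_of_nonneg_left h9 (by positivity)
        _ = ((j : ℝ) + 1) ^ (A' + 1) := (pow_succ _ _).symm
        _ ≤ 2 * (j : ℝ) ^ (A' + 1) := h8
    calc (h : ℝ) * ((((j + 1) ^ (A' + 1) : ℕ) : ℝ) - ((j ^ (A' + 1) : ℕ) : ℝ))
        ≤ h * (((A' : ℝ) + 1) * (2 * (j : ℝ) ^ (A' + 1) / Real.sqrt j)) := by
          refine mul_le_mul_of_nonneg_left ?_ (by positivity)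
          have := mul_le_mul_of_nonneg_left h7 (by positivity : (0 : ℝ) ≤ (A' : ℝ) + 1)
          linarith
      _ = 2 * ((A' + 1 : ℕ) : ℝ) * X / Real.sqrt j := by
          rw [hX]
          push_cast
          ring
  have hmB1 := BB_mono f h hjA
  have hmB2 := BB_mono f h hjA'.le
  have hmD1 := DD_mono f h hjA
  have hmD2 := DD_mono f h hjA'.le
  have hdD := DD_diff hf h (le_trans hjA hjA'.le)
  have hfin : |BB f N h - DD f N h| ≤ (2 * A + 120) * (X / Real.sqrt j) := by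
    obtain ⟨b1a, b1b⟩ := abs_le.1 b1
    obtain ⟨b2a, b2b⟩ := abs_le.1 b2'
    have r1 : 60 * X / Real.sqrt j = 60 * (X / Real.sqrt j) := by ring
    have r2 : 120 * X / Real.sqrt j = 120 * (X / Real.sqrt j) := by ring
    have r3 : 2 * A * X / Real.sqrt j = 2 * A * (X / Real.sqrt j) := by ring
    have r4 : 0 ≤ X / Real.sqrt j := by positivity
    rw [r1] at b1a b1b
    rw [r2] at b2a b2b
    rw [r3] at hgap
    rw [abs_le]
    constructor
    · linarith
    · linarith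
  refine hfin.trans ?_
  have hXN : X ≤ h * N := mul_le_mul_of_nonneg_left (by exact_mod_cast hjA) (by positivity)
  have hsq : 1 / Real.sqrt j ≤ 2 * (N : ℝ) ^ (-(1 / (2 * (A : ℝ)))) := by
    rw [Real.rpow_neg hN0'.le, ← div_eq_mul_inv, div_le_div_iff₀ hsj0 (by positivity), one_mul]
    have h6 : (N : ℝ) ^ (1 / (2 * (A : ℝ))) = Real.sqrt ((N : ℝ) ^ (1 / (A : ℝ))) := by
      rw [Real.sqrt_eq_rpow, ← Real.rpow_mul hN0'.le]
      congr 1
      field_simp
    rw [h6]
    calc Real.sqrt ((N : ℝ) ^ (1 / (A : ℝ))) ≤ Real.sqrt (4 * j) :=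
          Real.sqrt_le_sqrt (by linarith)
      _ = 2 * Real.sqrt j := by
          rw [Real.sqrt_mul (by norm_num), show (4 : ℝ) = 2 ^ 2 by norm_num,
            Real.sqrt_sq (by norm_num)]
  calc (2 * A + 120) * (X / Real.sqrt j) = (2 * A + 120) * (X * (1 / Real.sqrt j)) := by ring
    _ ≤ (2 * A + 120) * ((h * N) * (2 * (N : ℝ) ^ (-(1 / (2 * (A : ℝ)))))) :=
        mul_le_mul_of_nonneg_left (mul_le_mul hXN hsq (by positivity) (by positivity))
          (by positivity)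
    _ = (4 * A + 240) * (h * N) * (N : ℝ) ^ (-(1 / (2 * (A : ℝ)))) := by ring

end Pool.Agent.Q285.QT
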